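import Mathlib

/-!
A tensor product code whose energy barrier is below `min (d_a E_b, E_a d_b)`.
-/

namespace Pool.Agent.Results.MP_998457_co.Counter

open Matrix Kronecker

variable {m n m' n' : Type} [Fintype m] [Fintype n] [DecidableEq n] [Fintype m'] [Fintype n']
  [DecidableEq n']

/-- The energy: the number of violated checks. -/
def en (δ : Matrix m n (ZMod 2)) (x : n → ZMod 2) : ℕ := hammingNorm (δ *ᵥ x)

/-- `x` is reached from `0` by single bit flips with all energies at most `T`. -/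
def Reach (δ : Matrix m n (ZMod 2)) (T : ℕ) (x : n → ZMod 2) : Prop :=
  Relation.ReflTransGen (fun y z => hammingDist y z = 1 ∧ en δ z ≤ T) 0 x

/-- The energy barrier of the code. -/
noncomputable def barrier (δ : Matrix m n (ZMod 2)) : ℕ :=
  sInf {T | ∃ x, x ≠ 0 ∧ δ *ᵥ x = 0 ∧ Reach δ T x}

/-- The minimum distance of the code. -/
noncomputable def dist (δ : Matrix m n (ZMod 2)) : ℕ :=
  sInf {w | ∃ x, x ≠ 0 ∧ δ *ᵥ x = 0 ∧ hammingNorm x = w}

/-- The parity-check matrix of the tensor product code. -/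
def tens (δ : Matrix m n (ZMod 2)) (ε : Matrix m' n' (ZMod 2)) :
    Matrix ((m × n') ⊕ (n × m')) (n × n') (ZMod 2) :=
  fromRows (δ ⊗ₖ (1 : Matrix n' n' (ZMod 2))) ((1 : Matrix n n (ZMod 2)) ⊗ₖ ε)

def A : Matrix (Fin 3) (Fin 4) (ZMod 2) := !![1, 1, 1, 1; 1, 0, 0, 1; 0, 1, 0, 1]

lemma chain (δ : Matrix m n (ZMod 2)) (T : ℕ) (l : List (n → ZMod 2)) :
    ∀ x, Reach δ T x → List.IsChain (fun y z => hammingDist y z = 1 ∧ en δ z ≤ T) (x :: l) →
      Reach δ T ((x :: l).getLast (by simp)) := by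
  induction l with
  | nil => intro x h _; exact h
  | cons y l ih =>
    intro x h hc
    rw [List.isChain_cons_cons] at hc
    exact ih y (h.tail hc.1) hc.2

lemma dA : dist A = 4 := by
  have h : ∀ x, x ≠ 0 → A *ᵥ x = 0 → hammingNorm x = 4 := by decide +kernel
  refine IsLeast.csInf_eq ⟨⟨fun _ => 1, by decide, by decide, by decide⟩, ?_⟩
  rintro _ ⟨x, h1, h2, rfl⟩
  exact (h x h1 h2).ge

lemma bA : barrier A = 2 := by
  refine IsLeast.csInf_eq ⟨⟨fun _ => 1, by decide, by decide, chain A 2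
    [![0, 0, 1, 0], ![1, 0, 1, 0], ![1, 0, 1, 1], fun _ => 1] 0 .refl (by decide +kernel)⟩, ?_⟩
  rintro T ⟨x, h1, h2, h3⟩
  by_contra hT
  have k : ∀ y z, en A y ≤ 1 ∧ y 3 = 0 ∧ (y 0 = 0 ∨ y 1 = 0) → hammingDist y z = 1 →
      en A z ≤ 1 → z 3 = 0 ∧ (z 0 = 0 ∨ z 1 = 0) := by decide +kernel
  have : en A x ≤ 1 ∧ x 3 = 0 ∧ (x 0 = 0 ∨ x 1 = 0) := by
    clear h1 h2
    induction h3 with
    | refl => decide
    | tail _ h ih => exact ⟨by omega, k _ _ ih h.1 (by omega)⟩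
  revert x
  have : ∀ x : Fin 4 → ZMod 2, x ≠ 0 → A *ᵥ x = 0 → x 3 ≠ 0 := by decide +kernel
  exact fun x a b _ c => this x a b c.2.1

def bits (c : ℕ) (p : Fin 4 × Fin 4) : ZMod 2 := if c.testBit (4 * p.2.val + p.1.val) then 1 else 0

/-- Two codes (both with a nonzero codeword, full-rank checks, `d = 4`, `E = 2`) whose tensor
product code has energy barrier below `min (d_a E_b, E_a d_b) = 8`. -/
theorem result : ∃ (δ ε : Matrix (Fin 3) (Fin 4) (ZMod 2)),
    (∃ x, x ≠ 0 ∧ δ *ᵥ x = 0) ∧ (∃ x, x ≠ 0 ∧ ε *ᵥ x = 0) ∧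
    (∃ x, x ≠ 0 ∧ tens δ ε *ᵥ x = 0 ∧ Reach (tens δ ε) (barrier (tens δ ε)) x) ∧
    barrier (tens δ ε) < min (dist δ * barrier ε) (barrier δ * dist ε) := by
  have h : 6 ∈ {T | ∃ x, x ≠ 0 ∧ tens A A *ᵥ x = 0 ∧ Reach (tens A A) T x} :=
    ⟨bits 65535, by decide +kernel, by decide +kernel, chain (tens A A) 6
      ([1, 5, 69, 85, 16469, 17493, 21589, 21845, 23893, 24405, 24413, 24415, 57183, 57311,
        57343, 65535].map bits) 0 .refl (by decide +kernel)⟩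
  refine ⟨A, A, ⟨fun _ => 1, by decide, by decide⟩, ⟨fun _ => 1, by decide, by decide⟩,
    Nat.sInf_mem ⟨6, h⟩, ?_⟩
  rw [dA, bA]
  exact (Nat.sInf_le h).trans_lt (by decide)

end Pool.Agent.Results.MP_998457_co.Counter
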